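import Mathlib

/-! Asymmetric Lovasz local lemma for finite spaces with the counting measure. -/

namespace Pool.Agent.Helper19.LLL

open Finset

variable {Ω ι : Type*} [Fintype Ω] [DecidableEq Ω] [DecidableEq ι]

/-- points of Ω avoiding all events indexed by `T` -/
def avoid (A : ι → Finset Ω) (T : Finset ι) : Finset Ω :=
  Finset.univ.filter (fun ω => ∀ j ∈ T, ω ∉ A j)

omit [DecidableEq ι] in
lemma mem_avoid {A : ι → Finset Ω} {T : Finset ι} {ω : Ω} :
    ω ∈ avoid A T ↔ ∀ j ∈ T, ω ∉ A j := by
  simp [avoid]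

lemma avoid_insert (A : ι → Finset Ω) (T : Finset ι) (j : ι) :
    avoid A (insert j T) = avoid A T \ A j := by
  ext ω
  simp only [mem_avoid, Finset.mem_insert, Finset.mem_sdiff]
  constructor
  · intro h
    exact ⟨fun k hk => h k (Or.inr hk), h j (Or.inl rfl)⟩
  · rintro ⟨h1, h2⟩ k (rfl | hk)
    · exact h2
    · exact h1 k hk

/-- main inductive estimate of the local lemma -/
theorem key (A : ι → Finset Ω) (N : ι → Finset ι) (x : ι → ℝ)
    (hx0 : ∀ i, 0 ≤ x i) (hx1 : ∀ i, x i < 1)
    (hind : ∀ i, ∀ T : Finset ι, Disjoint T (N i) →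
      (((A i ∩ avoid A T).card : ℝ) * Fintype.card Ω ≤ (A i).card * (avoid A T).card))
    (hA : ∀ i, ((A i).card : ℝ) ≤ x i * (∏ j ∈ N i, (1 - x j)) * Fintype.card Ω)
    (hΩ : 0 < Fintype.card Ω) :
    ∀ k : ℕ, ∀ T : Finset ι, T.card = k → ∀ i,
      ((A i ∩ avoid A T).card : ℝ) ≤ x i * (avoid A T).card := by
  have hΩ' : (0 : ℝ) < Fintype.card Ω := by exact_mod_cast hΩ
  intro k
  induction k using Nat.strong_induction_on with
  | _ k ih =>
    intro T hT i
    set T1 := T ∩ N i with hT1
    set T2 := T \ N i with hT2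
    have hTu : T = T2 ∪ T1 := by
      rw [hT1, hT2]; exact (Finset.sdiff_union_inter T (N i)).symm
    -- step 1: lower bound for avoid A (T2 ∪ U)
    have step : ∀ U : Finset ι, U ⊆ T1 →
        (∏ j ∈ U, (1 - x j)) * (avoid A T2).card ≤ (avoid A (T2 ∪ U)).card := by
      intro U
      induction U using Finset.induction_on with
      | empty => intro _; simp
      | insert j U hj ihU =>
        intro hU
        have hU' : U ⊆ T1 := fun a ha => hU (Finset.mem_insert_of_mem ha)
        have hjT1 : j ∈ T1 := hU (Finset.mem_insert_self j U)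
        have h1 := ihU hU'
        have hjT : j ∈ T := (Finset.mem_inter.mp hjT1).1
        have hjN : j ∈ N i := (Finset.mem_inter.mp hjT1).2
        have hjnot : j ∉ T2 ∪ U := by
          rw [Finset.mem_union]
          rintro (h | h)
          · exact (Finset.mem_sdiff.mp h).2 hjN
          · exact hj h
        have hsub : T2 ∪ U ⊂ T := by
          refine Finset.ssubset_iff_subset_ne.mpr ⟨?_, ?_⟩
          · rw [hTu]; exact Finset.union_subset_union_right hU'
          · intro h; rw [h] at hjnot; exact hjnot hjT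
        have hcard : (T2 ∪ U).card < k := by
          rw [← hT]; exact Finset.card_lt_card hsub
        have h2 := ih _ hcard (T2 ∪ U) rfl j
        have e : T2 ∪ insert j U = insert j (T2 ∪ U) := by
          rw [Finset.union_insert]
        rw [e, avoid_insert, Finset.prod_insert hj]
        have h3 : ((avoid A (T2 ∪ U) \ A j).card : ℝ)
            = (avoid A (T2 ∪ U)).card - (A j ∩ avoid A (T2 ∪ U)).card := by
          have := Finset.card_sdiff_add_card_inter (avoid A (T2 ∪ U)) (A j)
          rw [Finset.inter_comm] at this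
          have h' : ((avoid A (T2 ∪ U) \ A j).card : ℝ) + (A j ∩ avoid A (T2 ∪ U)).card
              = (avoid A (T2 ∪ U)).card := by exact_mod_cast this
          linarith
        rw [h3]
        have hxj : 0 ≤ 1 - x j := by linarith [hx1 j]
        calc (1 - x j) * (∏ k ∈ U, (1 - x k)) * ((avoid A T2).card : ℝ)
            = (1 - x j) * ((∏ k ∈ U, (1 - x k)) * ((avoid A T2).card : ℝ)) := by ring
          _ ≤ (1 - x j) * ((avoid A (T2 ∪ U)).card : ℝ) :=
              mul_le_mul_of_nonneg_left h1 hxj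
          _ ≤ _ := by linarith
    have hstep := step T1 (Finset.Subset.refl _)
    rw [← hTu] at hstep
    have hprod : (∏ j ∈ N i, (1 - x j)) ≤ ∏ j ∈ T1, (1 - x j) := by
      have hs : T1 ⊆ N i := Finset.inter_subset_right
      rw [← Finset.prod_sdiff hs]
      have h0 : 0 ≤ ∏ j ∈ T1, (1 - x j) := Finset.prod_nonneg (fun j _ => by linarith [hx1 j])
      have h1 : ∏ j ∈ N i \ T1, (1 - x j) ≤ 1 :=
        Finset.prod_le_one (fun j _ => by linarith [hx1 j]) (fun j _ => by linarith [hx0 j])
      calc _ ≤ 1 * ∏ j ∈ T1, (1 - x j) := mul_le_mul_of_nonneg_right h1 h0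
        _ = _ := one_mul _
    have hsubset : A i ∩ avoid A T ⊆ A i ∩ avoid A T2 := by
      intro ω hω
      rw [Finset.mem_inter] at hω ⊢
      refine ⟨hω.1, ?_⟩
      have h2 := mem_avoid.mp hω.2
      exact mem_avoid.mpr (fun j hj => h2 j (Finset.mem_sdiff.mp hj).1)
    have hle : ((A i ∩ avoid A T).card : ℝ) ≤ (A i ∩ avoid A T2).card := by
      exact_mod_cast Finset.card_le_card hsubset
    have hdis : Disjoint T2 (N i) := Finset.sdiff_disjoint
    have hI := hind i T2 hdis
    have hA' := hA i
    have hb0 : (0 : ℝ) ≤ (avoid A T2).card := Nat.cast_nonneg _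
    have h5 : ((A i ∩ avoid A T2).card : ℝ) * Fintype.card Ω
        ≤ (x i * (∏ j ∈ N i, (1 - x j)) * (avoid A T2).card) * Fintype.card Ω := by
      calc _ ≤ ((A i).card : ℝ) * (avoid A T2).card := hI
        _ ≤ (x i * (∏ j ∈ N i, (1 - x j)) * Fintype.card Ω) * (avoid A T2).card :=
            mul_le_mul_of_nonneg_right hA' hb0
        _ = _ := by ring
    have h6 : ((A i ∩ avoid A T2).card : ℝ)
        ≤ x i * (∏ j ∈ N i, (1 - x j)) * (avoid A T2).card := le_of_mul_le_mul_right h5 hΩ'
    calc ((A i ∩ avoid A T).card : ℝ) ≤ _ := hle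
      _ ≤ _ := h6
      _ = x i * ((∏ j ∈ N i, (1 - x j)) * (avoid A T2).card) := by ring
      _ ≤ x i * ((∏ j ∈ T1, (1 - x j)) * (avoid A T2).card) :=
          mul_le_mul_of_nonneg_left (mul_le_mul_of_nonneg_right hprod hb0) (hx0 i)
      _ ≤ x i * (avoid A T).card := mul_le_mul_of_nonneg_left hstep (hx0 i)

/-- Asymmetric Lovasz local lemma (counting form). -/
theorem local_lemma (A : ι → Finset Ω) (N : ι → Finset ι) (x : ι → ℝ)
    (hx0 : ∀ i, 0 ≤ x i) (hx1 : ∀ i, x i < 1)
    (hind : ∀ i, ∀ T : Finset ι, Disjoint T (N i) →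
      (((A i ∩ avoid A T).card : ℝ) * Fintype.card Ω ≤ (A i).card * (avoid A T).card))
    (hA : ∀ i, ((A i).card : ℝ) ≤ x i * (∏ j ∈ N i, (1 - x j)) * Fintype.card Ω)
    (hΩ : 0 < Fintype.card Ω) (T : Finset ι) :
    ∃ ω : Ω, ∀ j ∈ T, ω ∉ A j := by
  have hk := key A N x hx0 hx1 hind hA hΩ
  have hpos : ∀ T : Finset ι, (0 : ℝ) < (avoid A T).card := by
    intro T
    induction T using Finset.induction_on with
    | empty =>
      have : avoid A (∅ : Finset ι) = Finset.univ := by
        ext ω; simp [mem_avoid]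
      rw [this, Finset.card_univ]
      exact_mod_cast hΩ
    | insert j T hj ih =>
      rw [avoid_insert]
      have h3 : ((avoid A T \ A j).card : ℝ)
            = (avoid A T).card - (A j ∩ avoid A T).card := by
          have := Finset.card_sdiff_add_card_inter (avoid A T) (A j)
          rw [Finset.inter_comm] at this
          have h' : ((avoid A T \ A j).card : ℝ) + (A j ∩ avoid A T).card
              = (avoid A T).card := by exact_mod_cast this
          linarith
      rw [h3]
      have h4 := hk T.card T rfl j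
      have h5 : x j * ((avoid A T).card : ℝ) < 1 * (avoid A T).card :=
        mul_lt_mul_of_pos_right (hx1 j) ih
      linarith
  have h := hpos T
  have h' : 0 < (avoid A T).card := by exact_mod_cast h
  obtain ⟨ω, hω⟩ := Finset.card_pos.mp h'
  exact ⟨ω, mem_avoid.mp hω⟩

/-- Independence of events depending on disjoint sets of coordinates (counting form). -/
theorem indep_card {X κ : Type*} [Fintype X] [DecidableEq X] [Fintype κ] [DecidableEq κ]
    (S : Finset X) (E F : Finset (X → κ))
    (hE : ∀ f g : X → κ, (∀ x ∈ S, f x = g x) → f ∈ E → g ∈ E)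
    (hF : ∀ f g : X → κ, (∀ x, x ∉ S → f x = g x) → f ∈ F → g ∈ F) :
    (E ∩ F).card * Fintype.card (X → κ) = E.card * F.card := by
  classical
  let mix : (X → κ) → (X → κ) → (X → κ) := fun f g x => if x ∈ S then f x else g x
  have hmix1 : ∀ f g, ∀ x ∈ S, mix f g x = f x := by
    intro f g x hx; simp [mix, hx]
  have hmix2 : ∀ f g, ∀ x, x ∉ S → mix f g x = g x := by
    intro f g x hx; simp [mix, hx]
  have hinv : ∀ f g, mix (mix f g) (mix g f) = f := by
    intro f g; funext x
    by_cases hx : x ∈ S <;> simp [mix, hx]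
  rw [← Finset.card_univ, ← Finset.card_product, ← Finset.card_product]
  refine Finset.card_bij' (fun p _ => (mix p.1 p.2, mix p.2 p.1))
    (fun p _ => (mix p.1 p.2, mix p.2 p.1)) ?_ ?_ ?_ ?_
  · rintro ⟨f, g⟩ h
    simp only [Finset.mem_product, Finset.mem_inter, Finset.mem_univ, and_true] at h ⊢
    exact ⟨hE f _ (fun x hx => (hmix1 f g x hx).symm) h.1,
      hF f _ (fun x hx => (hmix2 g f x hx).symm) h.2⟩
  · rintro ⟨f, g⟩ h
    simp only [Finset.mem_product, Finset.mem_inter, Finset.mem_univ, and_true] at h ⊢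
    exact ⟨hE f _ (fun x hx => (hmix1 f g x hx).symm) h.1,
      hF g _ (fun x hx => (hmix2 f g x hx).symm) h.2⟩
  · rintro ⟨f, g⟩ _
    simp only [Prod.mk.injEq]
    exact ⟨hinv f g, hinv g f⟩
  · rintro ⟨f, g⟩ _
    simp only [Prod.mk.injEq]
    exact ⟨hinv f g, hinv g f⟩

end Pool.Agent.Helper19.LLL
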