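import Mathlib

/-! Multicolour Ramsey numbers of subspaces of F_2^n: definitions. -/

namespace Pool.Agent.Helper19.Subspace

/-- The subspace `W` of `F_2^n` is monochromatic in colour `i` for the colouring `χ` of the
nonzero vectors of `F_2^n`. -/
def Mono {n r : ℕ} (χ : {v : Fin n → ZMod 2 // v ≠ 0} → Fin r)
    (W : Submodule (ZMod 2) (Fin n → ZMod 2)) (i : Fin r) : Prop :=
  ∀ (v : Fin n → ZMod 2) (hv : v ≠ 0), v ∈ W → χ ⟨v, hv⟩ = i

/-- Every `r`-colouring of the nonzero vectors of `F_2^n` has a monochromatic subspace of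
dimension `2` in one of the first `r - 1` colours, or of dimension `d` in the last colour. -/
def RamseyProp (r d n : ℕ) : Prop :=
  ∀ χ : {v : Fin n → ZMod 2 // v ≠ 0} → Fin r,
    (∃ i : Fin r, i.val + 1 < r ∧ ∃ W : Submodule (ZMod 2) (Fin n → ZMod 2),
      Module.finrank (ZMod 2) W = 2 ∧ Mono χ W i) ∨
    (∃ i : Fin r, i.val + 1 = r ∧ ∃ W : Submodule (ZMod 2) (Fin n → ZMod 2),
      Module.finrank (ZMod 2) W = d ∧ Mono χ W i)

/-- The Ramsey number `R^{(r)}_{F_2}(2; d) = R_{F_2}(2, ..., 2, d)` (with `r - 1` twos): the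
least `n` with the Ramsey property. -/
noncomputable def R (r d : ℕ) : ℕ := sInf {n : ℕ | RamseyProp r d n}

end Pool.Agent.Helper19.Subspace
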