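import Mathlib
import Pool.Agent.Helper19.LLL
import Pool.Agent.Helper19.SubspaceDefs

/-! Lower bound via the local lemma. -/

namespace Pool.Agent.Helper19.Subspace

open Finset Pool.Agent.Helper19.LLL

/-- number of functions with values in `C` on `Z` -/
lemma card_constrained {X : Type*} [Fintype X] [DecidableEq X] (K : ℕ) (Z : Finset X)
    (C : Finset (Fin K)) :
    (Finset.univ.filter (fun f : X → Fin K => ∀ x ∈ Z, f x ∈ C)).card
      = C.card ^ Z.card * K ^ (Fintype.card X - Z.card) := by
  classical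
  have h : (Finset.univ.filter (fun f : X → Fin K => ∀ x ∈ Z, f x ∈ C))
      = Fintype.piFinset (fun x => if x ∈ Z then C else Finset.univ) := by
    ext f
    simp only [Finset.mem_filter, Finset.mem_univ, true_and, Fintype.mem_piFinset]
    constructor
    · intro h x
      by_cases hx : x ∈ Z
      · simp [hx, h x hx]
      · simp [hx]
    · intro h x hx
      have := h x
      simpa [hx] using this
  rw [h, Fintype.card_piFinset]
  have : ∀ x, (if x ∈ Z then C else (Finset.univ : Finset (Fin K))).card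
      = if x ∈ Z then C.card else K := by
    intro x; split_ifs <;> simp
  simp_rw [this]
  rw [Finset.prod_ite]
  simp only [Finset.prod_const]
  congr 2
  · congr 1
    ext x; simp
  · rw [Finset.filter_not, Finset.card_sdiff_of_subset (Finset.filter_subset _ _)]
    congr 1
    congr 1
    ext x; simp

lemma exp_lower {x : ℝ} (h0 : 0 ≤ x) (h1 : x ≤ 1 / 2) : Real.exp (-(2 * x)) ≤ 1 - x := by
  have h2 : 2 * x + 1 ≤ Real.exp (2 * x) := Real.add_one_le_exp _
  rw [Real.exp_neg]
  rw [inv_le_comm₀ (Real.exp_pos _) (by linarith)]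
  calc (1 - x)⁻¹ ≤ 2 * x + 1 := by
        rw [inv_le_iff_one_le_mul₀ (by linarith)]
        nlinarith
    _ ≤ _ := h2

section

variable (n d K : ℕ)

/-- coordinates of the bad events -/
noncomputable def supp : ((Fin n → ZMod 2) × (Fin n → ZMod 2)) ⊕ (Fin d → (Fin n → ZMod 2)) →
    Finset (Fin n → ZMod 2) := by
  classical
  exact fun i => match i with
    | Sum.inl p => {p.1, p.2, p.1 + p.2}
    | Sum.inr b => Finset.univ.filter
        (fun v => v ≠ 0 ∧ v ∈ Submodule.span (ZMod 2) (Set.range b))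

/-- the bad events -/
noncomputable def bad [NeZero K] :
    ((Fin n → ZMod 2) × (Fin n → ZMod 2)) ⊕ (Fin d → (Fin n → ZMod 2)) →
    Finset ((Fin n → ZMod 2) → Fin K) := by
  classical
  exact fun i => match i with
    | Sum.inl p => if p.1 ≠ 0 ∧ p.2 ≠ 0 ∧ p.1 ≠ p.2 then
        Finset.univ.filter (fun f => ∀ v ∈ supp n d (Sum.inl p), f v ∈ ({0} : Finset (Fin K)))
        else ∅
    | Sum.inr b => if LinearIndependent (ZMod 2) b then
        Finset.univ.filter (fun f => ∀ v ∈ supp n d (Sum.inr b), f v ∈ (Finset.univ \ {0} : Finset (Fin K)))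
        else ∅

/-- neighbours -/
noncomputable def nbr (i : ((Fin n → ZMod 2) × (Fin n → ZMod 2)) ⊕ (Fin d → (Fin n → ZMod 2))) :
    Finset (((Fin n → ZMod 2) × (Fin n → ZMod 2)) ⊕ (Fin d → (Fin n → ZMod 2))) := by
  classical
  exact (Finset.univ.filter (fun p => ¬ Disjoint (supp n d i) (supp n d (Sum.inl p)))).disjSum
    (Finset.univ.filter (fun b => ¬ Disjoint (supp n d i) (supp n d (Sum.inr b))))

lemma mem_nbr (i j) : j ∈ nbr n d i ↔ ¬ Disjoint (supp n d i) (supp n d j) := by
  classical
  unfold nbr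
  rw [Finset.mem_disjSum]
  rcases j with p | b
  · simp
  · simp

lemma bad_depends [NeZero K] (i) (f g : (Fin n → ZMod 2) → Fin K)
    (h : ∀ x ∈ supp n d i, f x = g x) (hf : f ∈ bad n d K i) : g ∈ bad n d K i := by
  classical
  rcases i with p | b
  · simp only [bad] at hf ⊢
    split_ifs at hf ⊢ with h1
    · rw [Finset.mem_filter] at hf ⊢
      refine ⟨Finset.mem_univ _, fun v hv => ?_⟩
      rw [← h v hv]; exact hf.2 v hv
    · simp at hf
  · simp only [bad] at hf ⊢
    split_ifs at hf ⊢ with h1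
    · rw [Finset.mem_filter] at hf ⊢
      refine ⟨Finset.mem_univ _, fun v hv => ?_⟩
      rw [← h v hv]; exact hf.2 v hv
    · simp at hf

lemma indep_bad [NeZero K] (i) (T : Finset _) (hT : Disjoint T (nbr n d i)) :
    ((bad n d K i ∩ avoid (bad n d K) T).card : ℝ) * Fintype.card ((Fin n → ZMod 2) → Fin K)
      ≤ (bad n d K i).card * (avoid (bad n d K) T).card := by
  classical
  have h := indep_card (supp n d i) (bad n d K i) (avoid (bad n d K) T)
    (fun f g h hf => bad_depends n d K i f g h hf) ?_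
  · exact le_of_eq (by exact_mod_cast h)
  · intro f g hfg hf
    rw [mem_avoid] at hf ⊢
    intro j hj hgj
    refine hf j hj (bad_depends n d K j g f ?_ hgj)
    intro x hx
    have hd : Disjoint (supp n d i) (supp n d j) := by
      by_contra hcon
      exact Finset.disjoint_left.mp hT hj ((mem_nbr n d i j).mpr hcon)
    exact (hfg x (fun hxi => Finset.disjoint_left.mp hd hxi hx)).symm

/-- number of Schur-triple events touching a set -/
lemma card_touch (Z : Finset (Fin n → ZMod 2)) :
    by classical exact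
    (Finset.univ.filter (fun p : (Fin n → ZMod 2) × (Fin n → ZMod 2) =>
      ¬ Disjoint Z (supp n d (Sum.inl p)))).card ≤ 3 * Z.card * 2 ^ n := by
  classical
  have hsub : (Finset.univ.filter (fun p : (Fin n → ZMod 2) × (Fin n → ZMod 2) =>
      ¬ Disjoint Z (supp n d (Sum.inl p)))) ⊆
      (Z ×ˢ Finset.univ) ∪ ((Finset.univ ×ˢ Z) ∪
        (Z ×ˢ Finset.univ).image (fun q => (q.1 - q.2, q.2))) := by
    rintro ⟨x, y⟩ hp
    rw [Finset.mem_filter] at hp
    have h := hp.2
    rw [Finset.not_disjoint_iff] at h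
    obtain ⟨z, hz, hz2⟩ := h
    simp only [supp, Finset.mem_insert, Finset.mem_singleton] at hz2
    simp only [Finset.mem_union, Finset.mem_product, Finset.mem_univ, and_true, true_and,
      Finset.mem_image, Prod.mk.injEq, Prod.exists]
    rcases hz2 with rfl | rfl | rfl
    · left; exact hz
    · right; left; exact hz
    · right; right
      exact ⟨x + y, y, hz, by simp, rfl⟩
  have hN : (Finset.univ : Finset (Fin n → ZMod 2)).card = 2 ^ n := by
    simp [Finset.card_univ, ZMod.card]
  calc _ ≤ _ := Finset.card_le_card hsub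
    _ ≤ (Z ×ˢ Finset.univ).card + ((Finset.univ ×ˢ Z).card +
        ((Z ×ˢ (Finset.univ : Finset (Fin n → ZMod 2))).image (fun q => (q.1 - q.2, q.2))).card) := by
          refine (Finset.card_union_le _ _).trans ?_
          gcongr
          exact Finset.card_union_le _ _
    _ ≤ Z.card * 2 ^ n + (2 ^ n * Z.card + Z.card * 2 ^ n) := by
          gcongr
          · rw [Finset.card_product, hN]
          · rw [Finset.card_product, hN]
          · refine Finset.card_image_le.trans ?_
            rw [Finset.card_product, hN]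
    _ = _ := by ring


lemma card_supp_inr (b : Fin d → (Fin n → ZMod 2)) (hb : LinearIndependent (ZMod 2) b) :
    (supp n d (Sum.inr b)).card = 2 ^ d - 1 := by
  classical
  have h1 : (Finset.univ.filter
      (fun v : Fin n → ZMod 2 => v ∈ Submodule.span (ZMod 2) (Set.range b))).card = 2 ^ d := by
    have hf : Module.finrank (ZMod 2) (Submodule.span (ZMod 2) (Set.range b)) = d := by
      rw [finrank_span_eq_card hb]; simp
    have hc : Nat.card (Submodule.span (ZMod 2) (Set.range b)) = 2 ^ d := by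
      rw [Nat.card_eq_fintype_card, Module.card_eq_pow_finrank (K := ZMod 2), hf, ZMod.card]
    rw [← hc, Nat.card_eq_fintype_card, Fintype.card_subtype]
  have h2 : supp n d (Sum.inr b) = (Finset.univ.filter
      (fun v : Fin n → ZMod 2 => v ∈ Submodule.span (ZMod 2) (Set.range b))).erase 0 := by
    ext v
    simp [supp]
  rw [h2, Finset.card_erase_of_mem, h1]
  simp

lemma card_supp_inl (p : (Fin n → ZMod 2) × (Fin n → ZMod 2)) :
    (supp n d (Sum.inl p)).card ≤ 3 := by
  classical
  simp only [supp]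
  exact Finset.card_le_three

lemma card_supp_inl' (p : (Fin n → ZMod 2) × (Fin n → ZMod 2))
    (h : p.1 ≠ 0 ∧ p.2 ≠ 0 ∧ p.1 ≠ p.2) :
    (supp n d (Sum.inl p)).card = 3 := by
  classical
  simp only [supp]
  rw [Finset.card_eq_three]
  refine ⟨p.1, p.2, p.1 + p.2, h.2.2, ?_, ?_, rfl⟩
  · intro he
    exact h.2.1 (by simpa using he)
  · intro he
    exact h.1 (by simpa using he)

/-- The existence of a set without Schur triples that meets every `d`-dimensional subspace. -/
theorem exists_good (hd : 2 ≤ d) (h : 20 * 2 ^ ((n + 1) / 2) * (n * d + 2) ≤ 2 ^ d) :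
    ∃ S : Set (Fin n → ZMod 2),
      (∀ x y : Fin n → ZMod 2, x ≠ 0 → y ≠ 0 → x ≠ y → ¬ (x ∈ S ∧ y ∈ S ∧ x + y ∈ S)) ∧
      (∀ b : Fin d → (Fin n → ZMod 2), LinearIndependent (ZMod 2) b →
        ∃ v ∈ Submodule.span (ZMod 2) (Set.range b), v ≠ 0 ∧ v ∈ S) := by
  classical
  obtain ⟨K, hK⟩ : ∃ K : ℕ, K = 10 * 2 ^ ((n + 1) / 2) := ⟨_, rfl⟩
  have hK10 : 10 ≤ K := by
    rw [hK]
    have : 1 ≤ 2 ^ ((n + 1) / 2) := Nat.one_le_two_pow
    omega
  have : NeZero K := ⟨by omega⟩
  -- real constants
  have hKr : (10 : ℝ) ≤ K := by exact_mod_cast hK10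
  have hKpos : (0 : ℝ) < K := by linarith
  have hKN : (96 : ℝ) * 2 ^ n ≤ (K : ℝ) ^ 2 := by
    have h1 : 96 * 2 ^ n ≤ K ^ 2 := by
      rw [hK, mul_pow, ← pow_mul]
      have h2 : 2 ^ n ≤ 2 ^ ((n + 1) / 2 * 2) := Nat.pow_le_pow_right (by norm_num) (by omega)
      calc 96 * 2 ^ n ≤ 10 ^ 2 * 2 ^ n := by gcongr; norm_num
        _ ≤ _ := by gcongr
    exact_mod_cast h1
  have hKd : (2 : ℝ) * K * (n * d + 2) ≤ 2 ^ d := by
    have h1 : 2 * K * (n * d + 2) ≤ 2 ^ d := by
      rw [hK]
      calc _ = 20 * 2 ^ ((n + 1) / 2) * (n * d + 2) := by ring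
        _ ≤ _ := h
    exact_mod_cast h1
  set a : ℝ := 4 / (K : ℝ) ^ 3 with ha
  set M : ℝ := (2 : ℝ) ^ (n * d) with hM
  set bb : ℝ := 1 / (2 * M) with hbb
  have hMpos : 1 ≤ M := one_le_pow₀ (by norm_num)
  have ha0 : 0 < a := by positivity
  have hK3 : (0 : ℝ) < (K : ℝ) ^ 3 := by positivity
  have haK : a ≤ 1 / 2 := by
    rw [ha, div_le_iff₀ hK3]
    have : (10 : ℝ) ^ 3 ≤ (K : ℝ) ^ 3 := by gcongr
    linarith
  have hb0 : 0 < bb := by positivity
  have hb1 : bb ≤ 1 / 2 := by
    rw [hbb]
    apply one_div_le_one_div_of_le (by norm_num)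
    linarith
  -- Ω
  have hΩ : (Fintype.card ((Fin n → ZMod 2) → Fin K) : ℝ) = (K : ℝ) ^ (2 ^ n) := by
    rw [Fintype.card_fun, Fintype.card_fin]
    simp [ZMod.card]
  have hcardV : Fintype.card (Fin n → ZMod 2) = 2 ^ n := by simp [ZMod.card]
  have hΩpos : 0 < Fintype.card ((Fin n → ZMod 2) → Fin K) := Fintype.card_pos
  -- (1-a)^L ≥ exp(-2aL)
  have hexp : ∀ L : ℕ, Real.exp (-(2 * a * L)) ≤ (1 - a) ^ L := by
    intro L
    calc Real.exp (-(2 * a * L)) = (Real.exp (-(2 * a))) ^ L := by
          rw [← Real.exp_nat_mul]; congr 1; ring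
      _ ≤ (1 - a) ^ L := by
          gcongr
          exact exp_lower ha0.le haK
  have hbM : (1 : ℝ) / 2 ≤ (1 - bb) ^ (2 ^ (n * d)) := by
    have h1 := one_add_mul_le_pow (a := -bb) (by linarith) (2 ^ (n * d))
    have h2 : ((2 ^ (n * d) : ℕ) : ℝ) * bb = 1 / 2 := by
      push_cast
      rw [hbb, hM]
      field_simp
    calc (1 : ℝ) / 2 = 1 + ((2 ^ (n * d) : ℕ) : ℝ) * (-bb) := by
          rw [mul_neg, h2]; norm_num
      _ ≤ (1 + -bb) ^ (2 ^ (n * d)) := h1
      _ = _ := by rw [← sub_eq_add_neg]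
  -- the weights
  let x : ((Fin n → ZMod 2) × (Fin n → ZMod 2)) ⊕ (Fin d → (Fin n → ZMod 2)) → ℝ :=
    fun i => match i with
    | Sum.inl _ => a
    | Sum.inr _ => bb
  have hx0 : ∀ i, 0 ≤ x i := by
    rintro (p | b)
    · exact ha0.le
    · exact hb0.le
  have hx1 : ∀ i, x i < 1 := by
    rintro (p | b)
    · show a < 1; linarith
    · show bb < 1; linarith
  have hprod : ∀ i, (1 - a) ^ (3 * (supp n d i).card * 2 ^ n) * (1 / 2)
      ≤ ∏ j ∈ nbr n d i, (1 - x j) := by
    intro i
    unfold nbr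
    rw [Finset.prod_disjSum]
    simp only [x, Finset.prod_const]
    have h1 : (1 - a) ^ (3 * (supp n d i).card * 2 ^ n) ≤ (1 - a) ^ (Finset.univ.filter (fun p :
        (Fin n → ZMod 2) × (Fin n → ZMod 2) => ¬ Disjoint (supp n d i) (supp n d (Sum.inl p)))).card := by
      apply pow_le_pow_of_le_one (by linarith) (by linarith)
      exact card_touch n d (supp n d i)
    have h2 : (1 : ℝ) / 2 ≤ (1 - bb) ^ (Finset.univ.filter (fun b :
        (Fin d → (Fin n → ZMod 2)) => ¬ Disjoint (supp n d i) (supp n d (Sum.inr b)))).card := by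
      refine hbM.trans ?_
      apply pow_le_pow_of_le_one (by linarith) (by linarith)
      refine (Finset.card_le_univ _).trans ?_
      rw [Fintype.card_fun, hcardV, Fintype.card_fin, ← pow_mul]
    apply mul_le_mul h1 h2 (by norm_num)
    exact pow_nonneg (by linarith) _
  have hmain : ∀ i, ((bad n d K i).card : ℝ) ≤
      x i * (∏ j ∈ nbr n d i, (1 - x j)) * Fintype.card ((Fin n → ZMod 2) → Fin K) := by
    intro i
    rw [hΩ]
    have hKpow : (0 : ℝ) < (K : ℝ) ^ (2 ^ n) := by positivity
    rcases i with p | b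
    · -- Schur triples
      have hP := hprod (Sum.inl p)
      have hL : (1 : ℝ) / 2 ≤ (1 - a) ^ (3 * (supp n d (Sum.inl p)).card * 2 ^ n) := by
        have h1 : (1 : ℝ) / 2 ≤ (1 - a) ^ (9 * 2 ^ n) := by
          have h2 := one_add_mul_le_pow (a := -a) (by linarith) (9 * 2 ^ n)
          have h3 : ((9 * 2 ^ n : ℕ) : ℝ) * a ≤ 1 / 2 := by
            push_cast
            rw [ha]
            rw [mul_div_assoc', div_le_iff₀ hK3]
            have : (K : ℝ) ^ 3 = (K : ℝ) ^ 2 * K := by ring
            rw [this]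
            have h5 : (96 : ℝ) * 2 ^ n * 10 ≤ (K : ℝ) ^ 2 * K := by
              apply mul_le_mul hKN hKr (by norm_num) (by positivity)
            have : (0 : ℝ) < 2 ^ n := by positivity
            linarith
          calc (1 : ℝ) / 2 ≤ 1 + ((9 * 2 ^ n : ℕ) : ℝ) * (-a) := by
                rw [mul_neg]; linarith
            _ ≤ (1 + -a) ^ (9 * 2 ^ n) := h2
            _ = _ := by rw [← sub_eq_add_neg]
        refine h1.trans ?_
        apply pow_le_pow_of_le_one (by linarith) (by linarith)
        have := card_supp_inl n d p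
        calc _ ≤ 3 * 3 * 2 ^ n := by gcongr
          _ = _ := by ring
      have hc : ((bad n d K (Sum.inl p)).card : ℝ) ≤ (K : ℝ) ^ (2 ^ n) / (K : ℝ) ^ 3 := by
        by_cases hp : p.1 ≠ 0 ∧ p.2 ≠ 0 ∧ p.1 ≠ p.2
        · simp only [bad]
          rw [if_pos hp, card_constrained, card_supp_inl' n d p hp]
          simp only [Finset.card_singleton, one_pow, one_mul]
          rw [hcardV]
          have h3 : 3 ≤ 2 ^ n := by
            rw [← hcardV, ← card_supp_inl' n d p hp]
            exact Finset.card_le_univ _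
          push_cast
          rw [le_div_iff₀ hK3, ← pow_add]
          apply le_of_eq
          congr 1
          omega
        · simp only [bad]
          rw [if_neg hp]
          simp only [Finset.card_empty, Nat.cast_zero]
          positivity
      refine hc.trans ?_
      show _ ≤ a * _ * _
      have h4 : (1 : ℝ) / 2 * (1 / 2) ≤ ∏ j ∈ nbr n d (Sum.inl p), (1 - x j) := by
        refine le_trans ?_ hP
        gcongr
      calc (K : ℝ) ^ (2 ^ n) / (K : ℝ) ^ 3 = a * (1 / 2 * (1 / 2)) * (K : ℝ) ^ (2 ^ n) := by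
            rw [ha]; field_simp; norm_num
        _ ≤ _ := by gcongr
    · -- subspaces
      have hP := hprod (Sum.inr b)
      show _ ≤ bb * _ * _
      by_cases hb : LinearIndependent (ZMod 2) b
      · have hs := card_supp_inr n d b hb
        simp only [bad]
        rw [if_pos hb, card_constrained, hs, hcardV]
        have hc1 : (Finset.univ \ {0} : Finset (Fin K)).card = K - 1 := by
          rw [Finset.card_sdiff_of_subset (by simp)]; simp
        rw [hc1]
        have hle : 2 ^ d - 1 ≤ 2 ^ n := by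
          rw [← hs, ← hcardV]
          exact Finset.card_le_univ _
        have hd4 : 4 ≤ 2 ^ d := by
          calc 4 = 2 ^ 2 := by norm_num
            _ ≤ 2 ^ d := Nat.pow_le_pow_right (by norm_num) hd
        -- (K-1)^m K^(N-m) = (1-1/K)^m K^N ≤ exp(-m/K) K^N
        have e1 : (((K - 1) ^ (2 ^ d - 1) * K ^ (2 ^ n - (2 ^ d - 1)) : ℕ) : ℝ)
            ≤ Real.exp (-(((2 : ℝ) ^ d - 1) / K)) * (K : ℝ) ^ (2 ^ n) := by
          have hm : (((2 ^ d - 1 : ℕ)) : ℝ) = (2 : ℝ) ^ d - 1 := by
            rw [Nat.cast_sub (by omega)]; push_cast; ring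
          have e2 : ((K - 1 : ℕ) : ℝ) = K * (1 - 1 / K) := by
            rw [Nat.cast_sub (by omega)]
            field_simp
            push_cast; ring
          push_cast
          rw [e2, mul_pow]
          have e3 : (1 - 1 / (K : ℝ)) ^ (2 ^ d - 1) ≤ Real.exp (-(((2 : ℝ) ^ d - 1) / K)) := by
            calc (1 - 1 / (K : ℝ)) ^ (2 ^ d - 1) ≤ (Real.exp (-(1 / K))) ^ (2 ^ d - 1) := by
                  have : 0 ≤ 1 - 1 / (K : ℝ) := by
                    rw [sub_nonneg, div_le_one hKpos]; linarith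
                  gcongr
                  have := Real.add_one_le_exp (-(1 / (K : ℝ)))
                  linarith
              _ = _ := by
                  rw [← Real.exp_nat_mul]; congr 1
                  rw [hm]; ring
          calc (K : ℝ) ^ (2 ^ d - 1) * (1 - 1 / (K : ℝ)) ^ (2 ^ d - 1) * (K : ℝ) ^ (2 ^ n - (2 ^ d - 1))
              = (1 - 1 / (K : ℝ)) ^ (2 ^ d - 1) *
                ((K : ℝ) ^ (2 ^ d - 1) * (K : ℝ) ^ (2 ^ n - (2 ^ d - 1))) := by ring
            _ = (1 - 1 / (K : ℝ)) ^ (2 ^ d - 1) * (K : ℝ) ^ (2 ^ n) := by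
                rw [← pow_add]; congr 2; omega
            _ ≤ _ := by gcongr
        refine e1.trans ?_
        apply mul_le_mul_of_nonneg_right _ hKpow.le
        -- exp(-(2^d-1)/K) ≤ bb * prod
        have h5 : Real.exp (-(((2 : ℝ) ^ d - 1) / K)) ≤
            bb * ((1 - a) ^ (3 * (supp n d (Sum.inr b)).card * 2 ^ n) * (1 / 2)) := by
          have h6 := hexp (3 * (supp n d (Sum.inr b)).card * 2 ^ n)
          have h7 : Real.exp (-((2 : ℝ) ^ d / (4 * K))) ≤
              (1 - a) ^ (3 * (supp n d (Sum.inr b)).card * 2 ^ n) := by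
            refine le_trans ?_ h6
            rw [Real.exp_le_exp, neg_le_neg_iff]
            rw [hs]
            have h8 : (((3 * (2 ^ d - 1) * 2 ^ n : ℕ)) : ℝ) ≤ 3 * 2 ^ d * 2 ^ n := by
              have : 3 * (2 ^ d - 1) * 2 ^ n ≤ 3 * 2 ^ d * 2 ^ n := by gcongr; omega
              exact_mod_cast this
            calc 2 * a * (((3 * (2 ^ d - 1) * 2 ^ n : ℕ)) : ℝ) ≤ 2 * a * (3 * 2 ^ d * 2 ^ n) := by
                  gcongr
              _ ≤ (2 : ℝ) ^ d / (4 * K) := by
                  rw [ha, le_div_iff₀ (by positivity)]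
                  have e4 : 2 * (4 / (K : ℝ) ^ 3) * (3 * 2 ^ d * 2 ^ n) * (4 * K)
                      = 2 ^ d * (96 * 2 ^ n / (K : ℝ) ^ 2) := by
                    field_simp; norm_num
                  rw [e4]
                  have e5 : 96 * (2 : ℝ) ^ n / (K : ℝ) ^ 2 ≤ 1 := by
                    rw [div_le_one (by positivity)]; exact hKN
                  calc (2 : ℝ) ^ d * (96 * 2 ^ n / (K : ℝ) ^ 2) ≤ 2 ^ d * 1 := by gcongr
                    _ = _ := mul_one _
          have h9 : Real.exp (-((n : ℝ) * d + 2)) ≤ bb * (1 / 2) := by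
            have e6 : bb * (1 / 2) = ((2 : ℝ) ^ (n * d + 2))⁻¹ := by
              rw [hbb, hM, pow_add]; field_simp
            rw [e6, Real.exp_neg]
            apply inv_anti₀ (by positivity)
            calc (2 : ℝ) ^ (n * d + 2) ≤ (Real.exp 1) ^ (n * d + 2) := by
                  gcongr
                  have := Real.add_one_le_exp (1 : ℝ)
                  linarith
              _ = Real.exp ((n : ℝ) * d + 2) := by
                  rw [← Real.exp_nat_mul]; push_cast; congr 1; ring
          calc Real.exp (-(((2 : ℝ) ^ d - 1) / K))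
              ≤ Real.exp (-((n : ℝ) * d + 2) + -((2 : ℝ) ^ d / (4 * K))) := by
                rw [Real.exp_le_exp]
                have e7 : (n : ℝ) * d + 2 ≤ 2 ^ d / (2 * K) := by
                  rw [le_div_iff₀ (by positivity)]; linarith
                have e8 : (3 : ℝ) / 4 * 2 ^ d ≤ 2 ^ d - 1 := by
                  have : (4 : ℝ) ≤ 2 ^ d := by exact_mod_cast hd4
                  linarith
                have e9 : (3 : ℝ) / 4 * 2 ^ d / K ≤ (2 ^ d - 1) / K := by gcongr
                have e10 : (3 : ℝ) / 4 * 2 ^ d / K = 2 ^ d / (2 * K) + 2 ^ d / (4 * K) := by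
                  field_simp; norm_num
                linarith
            _ = Real.exp (-((n : ℝ) * d + 2)) * Real.exp (-((2 : ℝ) ^ d / (4 * K))) := Real.exp_add _ _
            _ ≤ (bb * (1 / 2)) * (1 - a) ^ (3 * (supp n d (Sum.inr b)).card * 2 ^ n) := by
                gcongr
            _ = _ := by ring
        refine h5.trans ?_
        gcongr
      · simp only [bad]
        rw [if_neg hb]
        simp only [Finset.card_empty, Nat.cast_zero]
        have : 0 ≤ ∏ j ∈ nbr n d (Sum.inr b), (1 - x j) :=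
          Finset.prod_nonneg (fun j _ => by linarith [hx1 j])
        positivity
  obtain ⟨f, hf⟩ := local_lemma (bad n d K) (nbr n d) x hx0 hx1
    (fun i T hT => indep_bad n d K i T hT) hmain hΩpos Finset.univ
  refine ⟨{v | f v = 0}, ?_, ?_⟩
  · intro u v hu hv huv ⟨h1, h2, h3⟩
    apply hf (Sum.inl (u, v)) (Finset.mem_univ _)
    simp only [bad]
    rw [if_pos ⟨hu, hv, huv⟩, Finset.mem_filter]
    refine ⟨Finset.mem_univ _, ?_⟩
    intro w hw
    simp only [supp, Finset.mem_insert, Finset.mem_singleton] at hw ⊢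
    rcases hw with rfl | rfl | rfl
    · exact h1
    · exact h2
    · exact h3
  · intro b hb
    by_contra hcon
    push Not at hcon
    apply hf (Sum.inr b) (Finset.mem_univ _)
    simp only [bad]
    rw [if_pos hb, Finset.mem_filter]
    refine ⟨Finset.mem_univ _, ?_⟩
    intro w hw
    simp only [supp, Finset.mem_filter, Finset.mem_univ, true_and] at hw
    simp only [Finset.mem_sdiff, Finset.mem_univ, true_and, Finset.mem_singleton]
    exact hcon w hw.2 hw.1

end

end Pool.Agent.Helper19.Subspace
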