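import Mathlib
import Pool.Agent.Helper19.SubspaceDefs
import Pool.Agent.Helper19.SubspaceLower

namespace Pool.Agent.Helper19.Subspace

open Finset

/-- a set without Schur triples meeting all `d`-dimensional subspaces gives a colouring -/
theorem not_ramsey_of_set {n d r : ℕ} (hr : 2 ≤ r) (S : Set (Fin n → ZMod 2))
    (h1 : ∀ x y : Fin n → ZMod 2, x ≠ 0 → y ≠ 0 → x ≠ y → ¬ (x ∈ S ∧ y ∈ S ∧ x + y ∈ S))
    (h2 : ∀ b : Fin d → (Fin n → ZMod 2), LinearIndependent (ZMod 2) b →
        ∃ v ∈ Submodule.span (ZMod 2) (Set.range b), v ≠ 0 ∧ v ∈ S) :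
    ¬ RamseyProp r d n := by
  classical
  intro h
  obtain ⟨c0, hc0⟩ : ∃ c : Fin r, c.val = 0 := ⟨⟨0, by omega⟩, rfl⟩
  obtain ⟨c1, hc1⟩ : ∃ c : Fin r, c.val + 1 = r := ⟨⟨r - 1, by omega⟩, by simp; omega⟩
  have hne : c0 ≠ c1 := by
    intro h; rw [← h] at hc1; omega
  rcases h (fun v => if v.1 ∈ S then c0 else c1) with ⟨i, hi, W, hW, hm⟩ | ⟨i, hi, W, hW, hm⟩
  · let b := Module.finBasisOfFinrankEq (ZMod 2) W hW
    have hb : LinearIndependent (ZMod 2) (fun j => ((b j : W) : Fin n → ZMod 2)) :=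
      b.linearIndependent.map' W.subtype (Submodule.ker_subtype W)
    set x : Fin n → ZMod 2 := ((b 0 : W) : Fin n → ZMod 2) with hx
    set y : Fin n → ZMod 2 := ((b 1 : W) : Fin n → ZMod 2) with hy
    have hx0 : x ≠ 0 := hb.ne_zero 0
    have hy0 : y ≠ 0 := hb.ne_zero 1
    have hxy : x ≠ y := fun h => by
      have := hb.injective h
      simp at this
    have hxy0 : x + y ≠ 0 := by
      intro h
      apply hxy
      have hneg : -y = y := by
        funext t; exact ZMod.neg_eq_self_mod_two (y t)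
      calc x = -y := eq_neg_of_add_eq_zero_left h
        _ = y := hneg
    have hxW : x ∈ W := (b 0).2
    have hyW : y ∈ W := (b 1).2
    have hxyW : x + y ∈ W := W.add_mem hxW hyW
    have hi1 : i ≠ c1 := by
      intro h; rw [h] at hi; omega
    have key : ∀ v, (hv : v ≠ 0) → v ∈ W → v ∈ S := by
      intro v hv hvW
      by_contra hS
      have := hm v hv hvW
      simp only [hS, if_false] at this
      exact hi1 this.symm
    exact h1 x y hx0 hy0 hxy ⟨key x hx0 hxW, key y hy0 hyW, key _ hxy0 hxyW⟩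
  · let b := Module.finBasisOfFinrankEq (ZMod 2) W hW
    have hb : LinearIndependent (ZMod 2) (fun j => ((b j : W) : Fin n → ZMod 2)) :=
      b.linearIndependent.map' W.subtype (Submodule.ker_subtype W)
    obtain ⟨v, hv, hv0, hvS⟩ := h2 _ hb
    have hvW : v ∈ W := by
      have : Submodule.span (ZMod 2) (Set.range (fun j => ((b j : W) : Fin n → ZMod 2))) ≤ W := by
        rw [Submodule.span_le]
        rintro _ ⟨j, rfl⟩
        exact (b j).2
      exact this hv
    have := hm v hv0 hvW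
    simp only [hvS, if_true] at this
    have hi1 : i = c1 := Fin.ext (by omega)
    exact hne (this.trans hi1)

/-- explicit form of the local lemma bound -/
theorem not_ramsey {n d r : ℕ} (hr : 2 ≤ r) (hd : 2 ≤ d)
    (h : 20 * 2 ^ ((n + 1) / 2) * (n * d + 2) ≤ 2 ^ d) : ¬ RamseyProp r d n := by
  obtain ⟨S, h1, h2⟩ := exists_good n d hd h
  exact not_ramsey_of_set hr S h1 h2

end Pool.Agent.Helper19.Subspace
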