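import Mathlib
import Pool.Agent.Helper19.SubspaceDefs

namespace Pool.Agent.Helper19.Subspace

open Finset

/-- Iterated affine Ramsey theorem over `F_2` (from Hales-Jewett). -/
theorem chain (κ : Type) [Finite κ] (M : ℕ) : ∃ N : ℕ, ∀ c : (Fin N → ZMod 2) → κ,
    ∃ (u : Fin M → (Fin N → ZMod 2)) (col : Fin M → κ), LinearIndependent (ZMod 2) u ∧
      ∀ i, ∀ w ∈ Submodule.span (ZMod 2) (u '' {j | i < j}), c (u i + w) = col i := by
  classical
  induction M with
  | zero =>
    refine ⟨0, fun c => ⟨Fin.elim0, Fin.elim0, ?_, fun i => Fin.elim0 i⟩⟩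
    exact linearIndependent_empty_type
  | succ M ih =>
    obtain ⟨m, hm⟩ := ih
    obtain ⟨ι, hι, hHJ⟩ := Combinatorics.Line.exists_mono_in_high_dimension (Fin m → ZMod 2) κ
    refine ⟨Module.finrank (ZMod 2) (ZMod 2 × (ι → Fin m → ZMod 2)), fun c => ?_⟩
    let e : (Fin (Module.finrank (ZMod 2) (ZMod 2 × (ι → Fin m → ZMod 2))) → ZMod 2) ≃ₗ[ZMod 2] (ZMod 2 × (ι → Fin m → ZMod 2)) :=
      (Module.finBasis (ZMod 2) (ZMod 2 × (ι → Fin m → ZMod 2))).equivFun.symm
    obtain ⟨l, col0, hl⟩ := hHJ (fun x => c (e.symm (1, x)))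
    let φ : (Fin m → ZMod 2) →ₗ[ZMod 2] (ZMod 2 × (ι → Fin m → ZMod 2)) :=
      { toFun := fun a => (0, fun i => if l.idxFun i = none then a else 0)
        map_add' := by
          intro a b
          refine Prod.ext (by simp) ?_
          funext i
          by_cases h : l.idxFun i = none <;> simp [h]
        map_smul' := by
          intro t a
          refine Prod.ext (by simp) ?_
          funext i
          by_cases h : l.idxFun i = none <;> simp [h] }
    have hφ : Function.Injective φ := by
      obtain ⟨i, hi⟩ := l.proper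
      intro a b hab
      have h1 : (φ a).2 i = (φ b).2 i := by rw [hab]
      simpa [φ, hi] using h1
    have hla : ∀ a, ((1, l a) : ZMod 2 × (ι → Fin m → ZMod 2)) = (1, l 0) + φ a := by
      intro a
      refine Prod.ext (by simp [φ]) ?_
      funext i
      simp only [φ, LinearMap.coe_mk, AddHom.coe_mk, Prod.snd_add, Pi.add_apply]
      cases h : l.idxFun i with
      | none => simp [h]
      | some b => simp [h]
    let ψ : (Fin m → ZMod 2) →ₗ[ZMod 2] (Fin (Module.finrank (ZMod 2) (ZMod 2 × (ι → Fin m → ZMod 2))) → ZMod 2) :=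
      e.symm.toLinearMap ∘ₗ φ
    have hψ : Function.Injective ψ := e.symm.injective.comp hφ
    obtain ⟨u', col', hu', hcol'⟩ := hm (fun a => c (ψ a))
    let u : Fin (M + 1) → (Fin (Module.finrank (ZMod 2) (ZMod 2 × (ι → Fin m → ZMod 2))) → ZMod 2) :=
      Fin.cons (e.symm (1, l 0)) (fun j => ψ (u' j))
    refine ⟨u, Fin.cons col0 col', ?_, ?_⟩
    · rw [linearIndependent_finCons]
      refine ⟨hu'.map' ψ (LinearMap.ker_eq_bot.mpr hψ), ?_⟩
      intro hmem
      have hle : Submodule.span (ZMod 2) (Set.range (fun j => ψ (u' j))) ≤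
          LinearMap.ker ((LinearMap.fst (ZMod 2) (ZMod 2) (ι → Fin m → ZMod 2)) ∘ₗ e.toLinearMap) := by
        rw [Submodule.span_le]
        rintro _ ⟨j, rfl⟩
        simp [ψ, φ]
      have := hle hmem
      simp at this
    · intro i
      refine Fin.cases ?_ (fun j => ?_) i
      · intro w hw
        have hle : Submodule.span (ZMod 2) (u '' {j | 0 < j}) ≤ LinearMap.range ψ := by
          rw [Submodule.span_le]
          rintro _ ⟨j, hj, rfl⟩
          have hj' : (0 : Fin (M + 1)) < j := hj
          obtain ⟨k, rfl⟩ := Fin.exists_succ_eq.mpr (ne_of_gt hj')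
          exact ⟨u' k, by simp [u]⟩
        obtain ⟨a, rfl⟩ := hle hw
        have h1 := hl a
        simp only [Fin.cons_zero, u]
        rw [← h1]
        show c (e.symm (1, l 0) + ψ a) = c (e.symm (1, l a))
        rw [hla a, map_add]
        rfl
      · intro w hw
        have himg : u '' {k | j.succ < k} = ψ '' (u' '' {k | j < k}) := by
          ext v
          constructor
          · rintro ⟨k, hk, rfl⟩
            have hk' : j.succ < k := hk
            have hk0 : k ≠ 0 := by
              intro h; rw [h] at hk'; exact absurd hk' (Fin.not_lt_zero _)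
            obtain ⟨k', rfl⟩ := Fin.exists_succ_eq.mpr hk0
            exact ⟨u' k', ⟨k', Fin.succ_lt_succ_iff.mp hk', rfl⟩, by simp [u]⟩
          · rintro ⟨_, ⟨k, hk, rfl⟩, rfl⟩
            exact ⟨k.succ, Fin.succ_lt_succ_iff.mpr hk, by simp [u]⟩
        rw [himg, ← Submodule.map_span] at hw
        obtain ⟨w', hw', rfl⟩ := hw
        have h1 := hcol' j w' hw'
        simp only [Fin.cons_succ, u]
        rw [← h1, map_add]

lemma leading {V : Type*} [AddCommGroup V] [Module (ZMod 2) V] {M : ℕ} (u : Fin M → V)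
    (I : Finset (Fin M)) : ∀ v ∈ Submodule.span (ZMod 2) (u '' (I : Set (Fin M))), v ≠ 0 →
      ∃ j ∈ I, ∃ w ∈ Submodule.span (ZMod 2) (u '' {k | j < k}), v = u j + w := by
  classical
  induction I using Finset.induction_on_min with
  | empty =>
    intro v hv hv0
    simp at hv
    exact absurd hv hv0
  | insert a s ha ih =>
    intro v hv hv0
    rw [Finset.coe_insert, Set.image_insert_eq, Submodule.mem_span_insert] at hv
    obtain ⟨t, z, hz, rfl⟩ := hv
    have ht : t = 0 ∨ t = 1 := by
      have h2 : ∀ s : ZMod 2, s = 0 ∨ s = 1 := by decide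
      exact h2 t
    rcases ht with rfl | rfl
    · rw [zero_smul, zero_add] at hv0 ⊢
      obtain ⟨j, hj, w, hw, h⟩ := ih z hz hv0
      exact ⟨j, Finset.mem_insert_of_mem hj, w, hw, h⟩
    · refine ⟨a, Finset.mem_insert_self _ _, z, ?_, by rw [one_smul]⟩
      refine Submodule.span_mono ?_ hz
      rintro _ ⟨k, hk, rfl⟩
      exact ⟨k, ha k hk, rfl⟩

/-- The Ramsey numbers exist. -/
theorem exists_ramsey (r d : ℕ) (hr : 1 ≤ r) (hd : 2 ≤ d) : ∃ n, RamseyProp r d n := by
  classical
  obtain ⟨N, hN⟩ := chain (Fin r) (r * d)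
  refine ⟨N, fun χ => ?_⟩
  obtain ⟨u, col, hu, hcol⟩ := hN (fun v => if h : v ≠ 0 then χ ⟨v, h⟩ else ⟨0, by omega⟩)
  have hpig : ∃ i : Fin r, d ≤ (Finset.univ.filter (fun j => col j = i)).card := by
    have := Finset.exists_le_card_fiber_of_mul_le_card_of_maps_to
      (s := (Finset.univ : Finset (Fin (r * d)))) (t := (Finset.univ : Finset (Fin r)))
      (f := col) (n := d) (fun _ _ => Finset.mem_univ _)
      ⟨⟨0, by omega⟩, Finset.mem_univ _⟩ (by simp)
    obtain ⟨i, _, hi⟩ := this
    exact ⟨i, hi⟩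
  obtain ⟨i, hi⟩ := hpig
  have key : ∀ I : Finset (Fin (r * d)), (∀ j ∈ I, col j = i) →
      Module.finrank (ZMod 2) (Submodule.span (ZMod 2) (u '' (I : Set (Fin (r * d))))) = I.card ∧
      Mono χ (Submodule.span (ZMod 2) (u '' (I : Set (Fin (r * d))))) i := by
    intro I hI
    constructor
    · have hli : LinearIndependent (ZMod 2) (fun j : I => u j) := hu.comp _ Subtype.val_injective
      have h1 := finrank_span_eq_card hli
      have h2 : Set.range (fun j : I => u j) = u '' (I : Set (Fin (r * d))) := by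
        ext v; simp
      rw [h2] at h1
      rw [h1]; simp
    · intro v hv hvW
      obtain ⟨j, hj, w, hw, h⟩ := leading u I v hvW hv
      have h1 := hcol j w hw
      rw [← h, hI j hj] at h1
      simpa [hv] using h1
  by_cases hlast : i.val + 1 = r
  · right
    obtain ⟨I, hI, hIc⟩ := Finset.exists_subset_card_eq hi
    have h := key I (fun j hj => (Finset.mem_filter.mp (hI hj)).2)
    exact ⟨i, hlast, _, by rw [h.1, hIc], h.2⟩
  · left
    obtain ⟨I, hI, hIc⟩ := Finset.exists_subset_card_eq (hd.trans hi)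
    have h := key I (fun j hj => (Finset.mem_filter.mp (hI hj)).2)
    exact ⟨i, by omega, _, by rw [h.1, hIc], h.2⟩

end Pool.Agent.Helper19.Subspace
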